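import Pool.Agent.Helper34.FQ.Defs
import Pool.Agent.Helper55.PN_WTS

/-!
Row SAMPA of the project FQ (MP_08bd45_co, helper34): averaging the branching property over
random subsets.
-/

namespace Pool.Agent.Helper34.FQ

open Finset Pool.Agent.Helper34.PN

theorem sampa_prob_card {α : Type} [DecidableEq α] (X S : Finset α) (hS : S ⊆ X) (r : ℕ)
    (η : ℝ) :
    ∑ Z ∈ X.powerset.filter (fun Z => (S ∩ Z).card = r), wt X η Z
      = (S.card.choose r : ℝ) * (η ^ r * (1 - η) ^ (S.card - r)) := by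
  rw [← Finset.sum_fiberwise_of_maps_to (g := fun Z => S ∩ Z) (t := S.powersetCard r)
    (fun Z hZ => Finset.mem_powersetCard.2 ⟨Finset.inter_subset_left,
      (Finset.mem_filter.1 hZ).2⟩)]
  have h : ∀ e ∈ S.powersetCard r, ∑ Z ∈ (X.powerset.filter
      (fun Z => (S ∩ Z).card = r)).filter (fun Z => S ∩ Z = e), wt X η Z
        = η ^ r * (1 - η) ^ (S.card - r) := by
    intro e he
    obtain ⟨h1, h2⟩ := Finset.mem_powersetCard.1 he
    have h3 := wt_sum_trace X S e hS h1 η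
    rw [h2] at h3
    rw [← h3]
    refine Finset.sum_congr ?_ fun _ _ => rfl
    ext Z
    simp only [Finset.mem_filter]
    constructor
    · rintro ⟨⟨h4, _⟩, h5⟩
      exact ⟨h4, by rw [Finset.inter_comm]; exact h5⟩
    · rintro ⟨h4, h5⟩
      rw [Finset.inter_comm] at h5
      exact ⟨⟨h4, by rw [h5]; exact h2⟩, h5⟩
  rw [Finset.sum_congr rfl h, Finset.sum_const, Finset.card_powersetCard, nsmul_eq_mul]

noncomputable def sampaC (r : ℕ) : ℝ := Real.exp (-(4 * r)) / (2 ^ r * (r.factorial : ℝ))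

theorem sampaC_pos (r : ℕ) : 0 < sampaC r := by
  unfold sampaC
  have : (0 : ℝ) < (r.factorial : ℝ) := by exact_mod_cast Nat.factorial_pos r
  positivity

theorem sampaC_le (r : ℕ) : sampaC r ≤ 1 := by
  unfold sampaC
  have h1 : (1 : ℝ) ≤ (r.factorial : ℝ) := by exact_mod_cast Nat.factorial_pos r
  have h2 : (1 : ℝ) ≤ 2 ^ r := one_le_pow₀ (by norm_num)
  have h3 : Real.exp (-(4 * (r : ℝ))) ≤ 1 := by
    rw [Real.exp_le_one_iff]
    have : (0 : ℝ) ≤ r := Nat.cast_nonneg r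
    linarith
  rw [div_le_one (by positivity)]
  nlinarith

theorem sampa_low (r s n : ℕ) (hr : 1 ≤ r) (hs : 2 * r ≤ s) (h1 : s ≤ n) (h2 : n ≤ 2 * s) :
    sampaC r ≤ (n.choose r : ℝ) * (((r : ℝ) / s) ^ r * (1 - (r : ℝ) / s) ^ (n - r)) := by
  have hs0 : (0 : ℝ) < s := by exact_mod_cast (by omega : 0 < s)
  have hr0 : (0 : ℝ) < r := by exact_mod_cast (by omega : 0 < r)
  have hf : (0 : ℝ) < (r.factorial : ℝ) := by exact_mod_cast Nat.factorial_pos r
  have hρ0 : 0 < (r : ℝ) / s := by positivity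
  have hρ1 : (r : ℝ) / s ≤ 1 / 2 := by
    rw [div_le_iff₀ hs0]
    have : (2 : ℝ) * r ≤ s := by exact_mod_cast hs
    linarith
  -- the binomial coefficient
  have hb : ((s : ℝ) / 2) ^ r ≤ (r.factorial : ℝ) * (n.choose r : ℝ) := by
    have h3 : (n + 1 - r) ^ r ≤ n.descFactorial r := Nat.pow_sub_le_descFactorial n r
    rw [Nat.descFactorial_eq_factorial_mul_choose] at h3
    have h4 : ((n + 1 - r : ℕ) : ℝ) ^ r ≤ (r.factorial : ℝ) * (n.choose r : ℝ) := by
      exact_mod_cast h3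
    refine le_trans (pow_le_pow_left₀ (by positivity) ?_ _) h4
    have h5 : s ≤ 2 * (n + 1 - r) := by omega
    have h6 : (s : ℝ) ≤ 2 * ((n + 1 - r : ℕ) : ℝ) := by exact_mod_cast h5
    linarith
  -- the power of one minus rho
  have hp : Real.exp (-(4 * r)) ≤ (1 - (r : ℝ) / s) ^ (n - r) := by
    have h3 : Real.exp (-(2 * ((r : ℝ) / s))) ≤ 1 - (r : ℝ) / s := by
      rw [Real.exp_neg]
      have h4 : 2 * ((r : ℝ) / s) + 1 ≤ Real.exp (2 * ((r : ℝ) / s)) := Real.add_one_le_exp _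
      have h5 : (Real.exp (2 * ((r : ℝ) / s)))⁻¹ ≤ (2 * ((r : ℝ) / s) + 1)⁻¹ :=
        inv_anti₀ (by linarith) h4
      refine h5.trans ?_
      rw [inv_le_iff_one_le_mul₀ (by linarith)]
      nlinarith
    have h4 : Real.exp (-(4 * r)) = (Real.exp (-(2 * ((r : ℝ) / s)))) ^ (2 * s) := by
      rw [← Real.exp_nat_mul]
      congr 1
      push_cast
      field_simp
      ring
    rw [h4]
    refine le_trans (pow_le_pow_left₀ (Real.exp_pos _).le h3 _) ?_
    exact pow_le_pow_of_le_one (by linarith) (by linarith) (by omega)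
  have hc : ((s : ℝ) / 2) ^ r / (r.factorial : ℝ) ≤ (n.choose r : ℝ) := by
    rw [div_le_iff₀ hf]
    linarith
  calc sampaC r = (((s : ℝ) / 2) ^ r / (r.factorial : ℝ))
        * ((1 / (s : ℝ)) ^ r * Real.exp (-(4 * r))) := by
          unfold sampaC
          have : ((s : ℝ) / 2) ^ r * (1 / (s : ℝ)) ^ r = 1 / 2 ^ r := by
            rw [← mul_pow]
            have h7 : (s : ℝ) / 2 * (1 / (s : ℝ)) = 1 / 2 := by field_simp
            rw [h7, one_div_pow]
          calc Real.exp (-(4 * r)) / (2 ^ r * (r.factorial : ℝ))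
              = (1 / 2 ^ r) * Real.exp (-(4 * r)) / (r.factorial : ℝ) := by
                field_simp
            _ = ((s : ℝ) / 2) ^ r * (1 / (s : ℝ)) ^ r * Real.exp (-(4 * r))
                  / (r.factorial : ℝ) := by rw [this]
            _ = _ := by ring
    _ ≤ (n.choose r : ℝ) * (((r : ℝ) / s) ^ r * (1 - (r : ℝ) / s) ^ (n - r)) := by
        refine mul_le_mul hc ?_ (by positivity) (by positivity)
        refine mul_le_mul ?_ hp (Real.exp_pos _).le (by positivity)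
        refine pow_le_pow_left₀ (by positivity) ?_ _
        gcongr
        exact_mod_cast hr

theorem sampa_fib {α : Type} [DecidableEq α] (H : Finset (Finset α)) (Z : Finset α)
    (L' : Finset (Finset α)) (μ : Finset α → ℝ) :
    ∑ e ∈ L', ∑ S ∈ H.filter (fun S => S ∩ Z = e), μ S
      = ∑ S ∈ H.filter (fun S => S ∩ Z ∈ L'), μ S := by
  rw [← Finset.sum_fiberwise_of_maps_to (g := fun S => S ∩ Z) (t := L')
    (fun S hS => (Finset.mem_filter.1 hS).2)]
  refine Finset.sum_congr rfl fun e he => ?_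
  refine Finset.sum_congr ?_ fun _ _ => rfl
  ext S
  simp only [Finset.mem_filter]
  constructor
  · rintro ⟨h1, h2⟩
    exact ⟨⟨h1, by rw [h2]; exact he⟩, h2⟩
  · rintro ⟨⟨h1, _⟩, h2⟩
    exact ⟨h1, h2⟩

theorem sampa_E1 {α : Type} [DecidableEq α] (X : Finset α) (η : ℝ) (g : α → ℝ) :
    ∑ Z ∈ X.powerset, wt X η Z * ∑ c ∈ Z, g c = η * ∑ c ∈ X, g c := by
  calc ∑ Z ∈ X.powerset, wt X η Z * ∑ c ∈ Z, g c
      = ∑ Z ∈ X.powerset, ∑ c ∈ X, (if {c} ⊆ Z then wt X η Z else 0) * g c := by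
        refine Finset.sum_congr rfl fun Z hZ => ?_
        have hZX := Finset.mem_powerset.1 hZ
        have h1 : ∑ c ∈ Z, g c = ∑ c ∈ X, (if c ∈ Z then g c else 0) := by
          rw [← Finset.sum_filter]
          refine Finset.sum_congr ?_ fun _ _ => rfl
          ext c
          rw [Finset.mem_filter]
          exact ⟨fun h => ⟨hZX h, h⟩, fun h => h.2⟩
        rw [h1, Finset.mul_sum]
        refine Finset.sum_congr rfl fun c _ => ?_
        by_cases h : c ∈ Z
        · rw [if_pos h, if_pos (Finset.singleton_subset_iff.2 h)]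
        · rw [if_neg h, if_neg (fun h' => h (Finset.singleton_subset_iff.1 h'))]
          ring
    _ = ∑ c ∈ X, ∑ Z ∈ X.powerset, (if {c} ⊆ Z then wt X η Z else 0) * g c :=
        Finset.sum_comm
    _ = ∑ c ∈ X, η * g c := by
        refine Finset.sum_congr rfl fun c hc => ?_
        rw [← Finset.sum_mul, ← Finset.sum_filter,
          wt_sum_superset X {c} (Finset.singleton_subset_iff.2 hc) η, Finset.card_singleton,
          pow_one]
    _ = η * ∑ c ∈ X, g c := by rw [Finset.mul_sum]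

theorem sampa_E2 {α : Type} [DecidableEq α] (X : Finset α) (η : ℝ) (g : α → α → ℝ) :
    ∑ Z ∈ X.powerset, wt X η Z * ∑ c ∈ Z, ∑ z ∈ Z.erase c, g c z
      = η ^ 2 * ∑ c ∈ X, ∑ z ∈ X.erase c, g c z := by
  calc ∑ Z ∈ X.powerset, wt X η Z * ∑ c ∈ Z, ∑ z ∈ Z.erase c, g c z
      = ∑ Z ∈ X.powerset, ∑ c ∈ X, ∑ z ∈ X.erase c,
          (if ({c, z} : Finset α) ⊆ Z then wt X η Z else 0) * g c z := by
        refine Finset.sum_congr rfl fun Z hZ => ?_
        have hZX := Finset.mem_powerset.1 hZ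
        have h1 : ∑ c ∈ Z, ∑ z ∈ Z.erase c, g c z
            = ∑ c ∈ X, ∑ z ∈ X.erase c, (if ({c, z} : Finset α) ⊆ Z then g c z else 0) := by
          have h2 : ∀ c ∈ X, ∑ z ∈ X.erase c, (if ({c, z} : Finset α) ⊆ Z then g c z else 0)
              = if c ∈ Z then ∑ z ∈ Z.erase c, g c z else 0 := by
            intro c _
            by_cases h : c ∈ Z
            · rw [if_pos h, ← Finset.sum_filter]
              refine Finset.sum_congr ?_ fun _ _ => rfl
              ext z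
              rw [Finset.mem_filter, Finset.mem_erase, Finset.mem_erase,
                Finset.insert_subset_iff, Finset.singleton_subset_iff]
              exact ⟨fun h' => ⟨h'.1.1, h'.2.2⟩, fun h' => ⟨⟨h'.1, hZX h'.2⟩, h, h'.2⟩⟩
            · rw [if_neg h]
              refine Finset.sum_eq_zero fun z _ => ?_
              rw [if_neg]
              intro h'
              rw [Finset.insert_subset_iff] at h'
              exact h h'.1
          rw [Finset.sum_congr rfl h2, ← Finset.sum_filter]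
          refine Finset.sum_congr ?_ fun _ _ => rfl
          ext c
          rw [Finset.mem_filter]
          exact ⟨fun h => ⟨hZX h, h⟩, fun h => h.2⟩
        rw [h1, Finset.mul_sum]
        refine Finset.sum_congr rfl fun c _ => ?_
        rw [Finset.mul_sum]
        refine Finset.sum_congr rfl fun z _ => ?_
        by_cases h : ({c, z} : Finset α) ⊆ Z
        · rw [if_pos h, if_pos h]
        · rw [if_neg h, if_neg h]
          ring
    _ = ∑ c ∈ X, ∑ z ∈ X.erase c, ∑ Z ∈ X.powerset,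
          (if ({c, z} : Finset α) ⊆ Z then wt X η Z else 0) * g c z := by
        rw [Finset.sum_comm]
        refine Finset.sum_congr rfl fun c _ => ?_
        rw [Finset.sum_comm]
    _ = ∑ c ∈ X, ∑ z ∈ X.erase c, η ^ 2 * g c z := by
        refine Finset.sum_congr rfl fun c hc => ?_
        refine Finset.sum_congr rfl fun z hz => ?_
        have hz' := Finset.mem_erase.1 hz
        rw [← Finset.sum_mul, ← Finset.sum_filter,
          wt_sum_superset X {c, z} (by
            rw [Finset.insert_subset_iff, Finset.singleton_subset_iff]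
            exact ⟨hc, hz'.2⟩) η, Finset.card_pair (Ne.symm hz'.1)]
    _ = η ^ 2 * ∑ c ∈ X, ∑ z ∈ X.erase c, g c z := by
        rw [Finset.mul_sum]
        refine Finset.sum_congr rfl fun c _ => ?_
        rw [Finset.mul_sum]

theorem sampa_amgm (a b t : ℝ) (ht : 0 < t) (hb : 0 ≤ b) (ha : 0 ≤ a) (hab : a ≤ b) :
    a ≤ t * b + a ^ 2 / (t * b) := by
  rcases eq_or_lt_of_le hb with h10 | h10
  · rw [← h10] at hab ⊢
    rw [mul_zero, div_zero]
    linarith
  · have htb : 0 < t * b := mul_pos ht h10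
    have h11 : a * (t * b) ≤ (t * b) * (t * b) + a ^ 2 := by
      nlinarith [sq_nonneg (a - t * b), mul_nonneg ha htb.le]
    have h12 : a ≤ ((t * b) * (t * b) + a ^ 2) / (t * b) := by
      rw [le_div_iff₀ htb]
      exact h11
    have h13 : ((t * b) * (t * b) + a ^ 2) / (t * b) = t * b + a ^ 2 / (t * b) := by
      field_simp
    rw [h13] at h12
    exact h12

theorem sampa_key (m r : ℕ) (ε : ℝ) (hb : BranchAt m r ε) (α : Type) [DecidableEq α]
    (X : Finset α) (H : Finset (Finset α)) (μ : Finset α → ℝ) (t : ℝ)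
    (hG : Good X H m) (hμ : ∀ S ∈ H, 0 ≤ μ S) (ht : 0 < t) (Z : Finset α) (hZ : Z ⊆ X) :
    ε * ∑ S ∈ H.filter (fun S => (S ∩ Z).card = r), μ S
      ≤ t * ∑ c ∈ Z, ∑ S ∈ H.filter (fun S => c ∈ S), μ S
        + ∑ c ∈ Z, ∑ z ∈ Z.erase c, (∑ S ∈ H.filter (fun S => c ∈ S ∧ z ∈ S), μ S) ^ 2
            / (t * ∑ S ∈ H.filter (fun S => c ∈ S), μ S) := by
  obtain ⟨L, hL⟩ : ∃ L : Finset (Finset α),
      L = (H.image (fun S => S ∩ Z)).filter (fun e => e.card = r) := ⟨_, rfl⟩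
  have hLm : ∀ e, e ∈ L ↔ (∃ S ∈ H, S ∩ Z = e) ∧ e.card = r := by
    intro e
    rw [hL, Finset.mem_filter, Finset.mem_image]
  obtain ⟨ζ, hζ⟩ := hb α Z L (fun e => ∑ S ∈ H.filter (fun S => S ∩ Z = e), μ S) (by
      intro e he
      obtain ⟨⟨S, _, rfl⟩, _⟩ := (hLm e).1 he
      exact Finset.inter_subset_right) (fun e he => ((hLm e).1 he).2)
    (fun e _ => Finset.sum_nonneg fun S hS => hμ S (Finset.mem_filter.1 hS).1) (by
      intro Y hY
      obtain ⟨R, hR1, hR2⟩ := hG Y (hY.trans hZ)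
      refine ⟨R, hR1, ?_⟩
      intro e he hcard
      obtain ⟨⟨S, hS, rfl⟩, _⟩ := (hLm e).1 he
      have h1 : ∀ W : Finset α, W ⊆ Y → S ∩ Z ∩ W = S ∩ W := by
        intro W hW
        rw [Finset.inter_assoc, Finset.inter_eq_right.2 (hW.trans hY)]
      rw [h1 Y (Finset.Subset.refl _)] at hcard
      obtain ⟨h2, h3⟩ := hR2 S hS hcard
      rw [h1 R hR1, h1 (Y \ R) Finset.sdiff_subset]
      exact ⟨h2, h3⟩)
  have h1 : ∑ S ∈ H.filter (fun S => (S ∩ Z).card = r), μ S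
      = ∑ e ∈ L, ∑ S ∈ H.filter (fun S => S ∩ Z = e), μ S := by
    rw [sampa_fib]
    refine Finset.sum_congr ?_ fun _ _ => rfl
    ext S
    rw [Finset.mem_filter, Finset.mem_filter, hLm]
    exact ⟨fun h => ⟨h.1, ⟨S, h.1, rfl⟩, h.2⟩, fun h => ⟨h.1, h.2.2⟩⟩
  rw [h1]
  refine hζ.trans ?_
  rw [Finset.mul_sum, ← Finset.sum_add_distrib]
  refine Finset.sum_le_sum fun c hc => ?_
  have hN0 : 0 ≤ ∑ S ∈ H.filter (fun S => c ∈ S), μ S :=
    Finset.sum_nonneg fun S hS => hμ S (Finset.mem_filter.1 hS).1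
  have hterm : ∀ z ∈ Z.erase c, 0 ≤ (∑ S ∈ H.filter (fun S => c ∈ S ∧ z ∈ S), μ S) ^ 2
      / (t * ∑ S ∈ H.filter (fun S => c ∈ S), μ S) := by
    intro z _
    exact div_nonneg (sq_nonneg _) (mul_nonneg ht.le hN0)
  rcases Finset.eq_empty_or_nonempty
    (L.filter (fun e => c ∈ e ∧ ζ c ∈ e ∧ ζ c ≠ c)) with he | hne
  · rw [he, Finset.sum_empty]
    exact add_nonneg (mul_nonneg ht.le hN0) (Finset.sum_nonneg hterm)
  · obtain ⟨e0, he0⟩ := hne
    obtain ⟨h2, h3, h4, h5⟩ := Finset.mem_filter.1 he0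
    obtain ⟨⟨S0, _, rfl⟩, _⟩ := (hLm e0).1 h2
    have hz : ζ c ∈ Z.erase c := Finset.mem_erase.2 ⟨h5, (Finset.mem_inter.1 h4).2⟩
    have h6 : ∑ e ∈ L.filter (fun e => c ∈ e ∧ ζ c ∈ e ∧ ζ c ≠ c),
        ∑ S ∈ H.filter (fun S => S ∩ Z = e), μ S
        ≤ ∑ S ∈ H.filter (fun S => c ∈ S ∧ ζ c ∈ S), μ S := by
      rw [sampa_fib]
      refine Finset.sum_le_sum_of_subset_of_nonneg ?_ ?_
      · intro S hS
        obtain ⟨h7, h8⟩ := Finset.mem_filter.1 hS
        obtain ⟨_, h9, h10, _⟩ := Finset.mem_filter.1 h8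
        exact Finset.mem_filter.2 ⟨h7, (Finset.mem_inter.1 h9).1, (Finset.mem_inter.1 h10).1⟩
      · intro S hS _
        exact hμ S (Finset.mem_filter.1 hS).1
    have h7 : ∑ S ∈ H.filter (fun S => c ∈ S ∧ ζ c ∈ S), μ S
        ≤ ∑ S ∈ H.filter (fun S => c ∈ S), μ S := by
      refine Finset.sum_le_sum_of_subset_of_nonneg ?_ ?_
      · intro S hS
        obtain ⟨h8, h9⟩ := Finset.mem_filter.1 hS
        exact Finset.mem_filter.2 ⟨h8, h9.1⟩
      · intro S hS _
        exact hμ S (Finset.mem_filter.1 hS).1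
    have h8 : 0 ≤ ∑ S ∈ H.filter (fun S => c ∈ S ∧ ζ c ∈ S), μ S :=
      Finset.sum_nonneg fun S hS => hμ S (Finset.mem_filter.1 hS).1
    have h9 := Finset.single_le_sum (f := fun z => (∑ S ∈ H.filter
      (fun S => c ∈ S ∧ z ∈ S), μ S) ^ 2 / (t * ∑ S ∈ H.filter (fun S => c ∈ S), μ S))
      hterm hz
    refine h6.trans ?_
    refine le_trans ?_ (add_le_add (le_refl _) h9)
    change _ ≤ _ + (∑ S ∈ H.filter (fun S => c ∈ S ∧ ζ c ∈ S), μ S) ^ 2
      / (t * ∑ S ∈ H.filter (fun S => c ∈ S), μ S)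
    exact sampa_amgm _ _ t ht hN0 h8 h7

theorem samp_avg (m r : ℕ) (ε : ℝ) (hr : 1 ≤ r) (hε : 0 < ε) (hb : BranchAt m r ε) :
    ∃ cr : ℝ, 0 < cr ∧ cr ≤ 1 ∧ ∀ (α : Type) [DecidableEq α] (X : Finset α)
      (H : Finset (Finset α)) (s : ℕ) (μ : Finset α → ℝ) (t : ℝ), 2 * r ≤ s →
      (∀ S ∈ H, S ⊆ X) → Good X H m → (∀ S ∈ H, s ≤ S.card ∧ S.card ≤ 2 * s) →
      (∀ S ∈ H, 0 ≤ μ S) → 0 < t →
      ε * cr * ∑ S ∈ H, μ S ≤ 2 * r * t * ∑ S ∈ H, μ S
        + (r : ℝ) ^ 2 / ((s : ℝ) ^ 2 * t) * ∑ c ∈ X,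
            (∑ z ∈ X.erase c, (∑ S ∈ H.filter (fun S => c ∈ S ∧ z ∈ S), μ S) ^ 2)
              / (∑ S ∈ H.filter (fun S => c ∈ S), μ S) := by
  refine ⟨sampaC r, sampaC_pos r, sampaC_le r, ?_⟩
  intro α _ X H s μ t hs hHX hG hcard hμ ht
  have hs0 : (0 : ℝ) < s := by exact_mod_cast (by omega : 0 < s)
  have hr0 : (0 : ℝ) < r := by exact_mod_cast (by omega : 0 < r)
  obtain ⟨η, hη⟩ : ∃ η : ℝ, η = (r : ℝ) / s := ⟨_, rfl⟩
  have hη0 : 0 ≤ η := by rw [hη]; positivity
  have hη1 : η ≤ 1 := by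
    rw [hη, div_le_one hs0]
    exact_mod_cast (by omega : r ≤ s)
  have hsum : ∑ Z ∈ X.powerset, wt X η Z *
        (ε * ∑ S ∈ H.filter (fun S => (S ∩ Z).card = r), μ S)
      ≤ ∑ Z ∈ X.powerset, wt X η Z *
        (t * ∑ c ∈ Z, ∑ S ∈ H.filter (fun S => c ∈ S), μ S
        + ∑ c ∈ Z, ∑ z ∈ Z.erase c, (∑ S ∈ H.filter (fun S => c ∈ S ∧ z ∈ S), μ S) ^ 2
            / (t * ∑ S ∈ H.filter (fun S => c ∈ S), μ S)) := by
    refine Finset.sum_le_sum fun Z hZ => ?_
    refine mul_le_mul_of_nonneg_left ?_ (wt_nonneg X η hη0 hη1 Z)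
    exact sampa_key m r ε hb α X H μ t hG hμ ht Z (Finset.mem_powerset.1 hZ)
  have hleft : ε * sampaC r * ∑ S ∈ H, μ S ≤ ∑ Z ∈ X.powerset, wt X η Z *
        (ε * ∑ S ∈ H.filter (fun S => (S ∩ Z).card = r), μ S) := by
    have h1 : ∑ Z ∈ X.powerset, wt X η Z *
        (ε * ∑ S ∈ H.filter (fun S => (S ∩ Z).card = r), μ S)
        = ε * ∑ S ∈ H, μ S *
          ∑ Z ∈ X.powerset.filter (fun Z => (S ∩ Z).card = r), wt X η Z := by
      calc ∑ Z ∈ X.powerset, wt X η Z *
            (ε * ∑ S ∈ H.filter (fun S => (S ∩ Z).card = r), μ S)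
          = ∑ Z ∈ X.powerset, ∑ S ∈ H,
              ε * (μ S * (if (S ∩ Z).card = r then wt X η Z else 0)) := by
            refine Finset.sum_congr rfl fun Z _ => ?_
            rw [Finset.sum_filter, Finset.mul_sum, Finset.mul_sum]
            refine Finset.sum_congr rfl fun S _ => ?_
            by_cases h : (S ∩ Z).card = r
            · rw [if_pos h, if_pos h]
              ring
            · rw [if_neg h, if_neg h]
              ring
        _ = ∑ S ∈ H, ∑ Z ∈ X.powerset,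
              ε * (μ S * (if (S ∩ Z).card = r then wt X η Z else 0)) := Finset.sum_comm
        _ = _ := by
            rw [Finset.mul_sum]
            refine Finset.sum_congr rfl fun S _ => ?_
            rw [Finset.sum_filter, Finset.mul_sum, Finset.mul_sum]
    rw [h1, mul_assoc]
    refine mul_le_mul_of_nonneg_left ?_ hε.le
    rw [Finset.mul_sum]
    refine Finset.sum_le_sum fun S hS => ?_
    rw [sampa_prob_card X S (hHX S hS) r η, mul_comm]
    refine mul_le_mul_of_nonneg_left ?_ (hμ S hS)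
    rw [hη]
    exact sampa_low r s S.card hr hs (hcard S hS).1 (hcard S hS).2
  have hright : ∑ Z ∈ X.powerset, wt X η Z *
        (t * ∑ c ∈ Z, ∑ S ∈ H.filter (fun S => c ∈ S), μ S
        + ∑ c ∈ Z, ∑ z ∈ Z.erase c, (∑ S ∈ H.filter (fun S => c ∈ S ∧ z ∈ S), μ S) ^ 2
            / (t * ∑ S ∈ H.filter (fun S => c ∈ S), μ S))
      = t * (η * ∑ c ∈ X, ∑ S ∈ H.filter (fun S => c ∈ S), μ S)
        + η ^ 2 * ∑ c ∈ X, ∑ z ∈ X.erase c,
          (∑ S ∈ H.filter (fun S => c ∈ S ∧ z ∈ S), μ S) ^ 2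
            / (t * ∑ S ∈ H.filter (fun S => c ∈ S), μ S) := by
    rw [← sampa_E1, ← sampa_E2, Finset.mul_sum, ← Finset.sum_add_distrib]
    refine Finset.sum_congr rfl fun Z _ => ?_
    ring
  have hN : ∑ c ∈ X, ∑ S ∈ H.filter (fun S => c ∈ S), μ S ≤ 2 * s * ∑ S ∈ H, μ S := by
    calc ∑ c ∈ X, ∑ S ∈ H.filter (fun S => c ∈ S), μ S
        = ∑ S ∈ H, ∑ c ∈ X, (if c ∈ S then μ S else 0) := by
          rw [Finset.sum_comm]
          refine Finset.sum_congr rfl fun c _ => ?_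
          rw [Finset.sum_filter]
      _ ≤ ∑ S ∈ H, 2 * s * μ S := by
          refine Finset.sum_le_sum fun S hS => ?_
          rw [← Finset.sum_filter, Finset.sum_const, nsmul_eq_mul]
          refine mul_le_mul_of_nonneg_right ?_ (hμ S hS)
          have h1 : (X.filter (fun c => c ∈ S)).card ≤ S.card :=
            Finset.card_le_card fun c hc => (Finset.mem_filter.1 hc).2
          exact_mod_cast h1.trans (hcard S hS).2
      _ = 2 * s * ∑ S ∈ H, μ S := by rw [Finset.mul_sum]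
  have hlast : η ^ 2 * ∑ c ∈ X, ∑ z ∈ X.erase c,
          (∑ S ∈ H.filter (fun S => c ∈ S ∧ z ∈ S), μ S) ^ 2
            / (t * ∑ S ∈ H.filter (fun S => c ∈ S), μ S)
      = (r : ℝ) ^ 2 / ((s : ℝ) ^ 2 * t) * ∑ c ∈ X,
            (∑ z ∈ X.erase c, (∑ S ∈ H.filter (fun S => c ∈ S ∧ z ∈ S), μ S) ^ 2)
              / (∑ S ∈ H.filter (fun S => c ∈ S), μ S) := by
    rw [Finset.mul_sum, Finset.mul_sum]
    refine Finset.sum_congr rfl fun c _ => ?_
    rw [← Finset.sum_div, hη, div_pow]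
    rw [div_mul_eq_div_div]
    ring
  rw [hright, hlast] at hsum
  have h2 : t * (η * ∑ c ∈ X, ∑ S ∈ H.filter (fun S => c ∈ S), μ S)
      ≤ 2 * r * t * ∑ S ∈ H, μ S := by
    calc t * (η * ∑ c ∈ X, ∑ S ∈ H.filter (fun S => c ∈ S), μ S)
        ≤ t * (η * (2 * s * ∑ S ∈ H, μ S)) :=
          mul_le_mul_of_nonneg_left (mul_le_mul_of_nonneg_left hN hη0) ht.le
      _ = 2 * r * t * ∑ S ∈ H, μ S := by
          rw [hη]
          field_simp
  linarith

end Pool.Agent.Helper34.FQ
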